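import Pool.Agent.helper59.GF.Spec

/-!
# gf:CLP (project MP_06d6be_co, spec by helper59)
-/

set_option autoImplicit false

namespace Pool.Agent.GF

theorem CLP_idx_inj {p m : ℕ} : Function.Injective (idx (p := p) (m := m)) := by
  rintro ⟨a, b⟩ ⟨a', b'⟩ h
  have h' : (a : ℕ) * m + (b : ℕ) = (a' : ℕ) * m + (b' : ℕ) := h
  have hb := b.2
  have hb' := b'.2
  have hm : 0 < m := lt_of_le_of_lt (Nat.zero_le _) hb
  have h1 : ((a : ℕ) * m + (b : ℕ)) / m = (a : ℕ) := by
    rw [mul_comm, Nat.mul_add_div hm, Nat.div_eq_of_lt hb, add_zero]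
  have h2 : ((a' : ℕ) * m + (b' : ℕ)) / m = (a' : ℕ) := by
    rw [mul_comm, Nat.mul_add_div hm, Nat.div_eq_of_lt hb', add_zero]
  have h3 : (a : ℕ) = (a' : ℕ) := by rw [← h1, ← h2, h']
  have h4 : (b : ℕ) = (b' : ℕ) := by rw [h3] at h'; omega
  exact Prod.ext (Fin.ext h3) (Fin.ext h4)

theorem CLP : CLP_stmt := by
  classical
  intro p m I hI hn
  have hf : Function.Injective fun r => idx (I r) := CLP_idx_inj.comp hI
  -- the pairs of the same class
  let S : Finset (Fin (p + 2) × Fin (p + 2)) :=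
    Finset.univ.filter fun q => q.1 ≠ q.2 ∧ (I q.1).1 = (I q.2).1
  have hS : S.Nonempty := by
    by_contra hcon
    apply hn
    intro r r' hrr
    by_contra hne
    apply hcon
    exact ⟨(r, r'), Finset.mem_filter.2 ⟨Finset.mem_univ _, hne, hrr⟩⟩
  obtain ⟨q, hq, hmax⟩ := Finset.exists_max_image S (fun q => min (idx (I q.1)) (idx (I q.2))) hS
  have hq2 := (Finset.mem_filter.1 hq).2
  -- the key fact for an ordered pair
  have key : ∀ r₀ r₁ : Fin (p + 2), r₀ ≠ r₁ → (I r₀).1 = (I r₁).1 → idx (I r₀) < idx (I r₁) →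
      (∀ r r', r ≠ r' → (I r).1 = (I r').1 → min (idx (I r)) (idx (I r')) ≤ idx (I r₀)) →
      ∀ r r', r ≠ r' → (I r).1 = (I r').1 →
        (r = r₀ ∧ r' = r₁) ∨ (r = r₁ ∧ r' = r₀) ∨ min (idx (I r)) (idx (I r')) < idx (I r₀) := by
    intro r₀ r₁ h01 hc hlt hm r r' hrr hcl
    have aux : ∀ s : Fin (p + 2), s ≠ r₀ → (I s).1 = (I r₀).1 → idx (I r₀) < idx (I s) → s = r₁ := by
      intro s hs hsc hslt
      by_contra hne
      have h5 := hm s r₁ hne (hsc.trans hc)
      have h6 : idx (I r₀) < min (idx (I s)) (idx (I r₁)) := lt_min hslt hlt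
      omega
    rcases lt_or_eq_of_le (hm r r' hrr hcl) with h | h
    · exact Or.inr (Or.inr h)
    · rcases le_total (idx (I r)) (idx (I r')) with hle | hle
      · rw [min_eq_left hle] at h
        have hr : r = r₀ := hf h
        subst hr
        have hlt' : idx (I r) < idx (I r') := lt_of_le_of_ne hle fun he => hrr (hf he)
        exact Or.inl ⟨rfl, aux r' (Ne.symm hrr) hcl.symm hlt'⟩
      · rw [min_eq_right hle] at h
        have hr : r' = r₀ := hf h
        subst hr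
        have hlt' : idx (I r') < idx (I r) := lt_of_le_of_ne hle fun he => hrr (hf he).symm
        exact Or.inr (Or.inl ⟨aux r hrr hcl hlt', rfl⟩)
  have hne : idx (I q.1) ≠ idx (I q.2) := fun he => hq2.1 (hf he)
  have hall : ∀ r r', r ≠ r' → (I r).1 = (I r').1 →
      min (idx (I r)) (idx (I r')) ≤ min (idx (I q.1)) (idx (I q.2)) := by
    intro r r' hrr hcl
    exact hmax (r, r') (Finset.mem_filter.2 ⟨Finset.mem_univ _, hrr, hcl⟩)
  rcases lt_or_gt_of_ne hne with hlt | hgt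
  · refine ⟨q.1, q.2, hq2.1, hq2.2, hlt, key q.1 q.2 hq2.1 hq2.2 hlt ?_⟩
    intro r r' hrr hcl
    have := hall r r' hrr hcl
    rwa [min_eq_left hlt.le] at this
  · refine ⟨q.2, q.1, hq2.1.symm, hq2.2.symm, hgt, key q.2 q.1 hq2.1.symm hq2.2.symm hgt ?_⟩
    intro r r' hrr hcl
    have := hall r r' hrr hcl
    rwa [min_eq_right hgt.le] at this

end Pool.Agent.GF
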